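import Pool.Agent.Q127.Cost.Step

/-!
# MP_ff3c98_co: the cost number is bounded in terms of the determining number

For every `d` there is a constant `C` such that every finite 2-distinguishable graph `G` with
determining number `d` has cost number at most `C`. So Boutin's question has a negative answer
for every `d`.
-/

namespace Pool.Agent.Results.MP_ff3c98_co.CostBounded

open Finset Q127.Cost

universe u

/-- A colouring with `k` colours is distinguishing if the identity is the only automorphism
which maps every vertex to a vertex of the same colour. -/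
def IsDistinguishing {V : Type u} (G : SimpleGraph V) {k : ℕ} (c : V → Fin k) : Prop :=
  ∀ σ : G ≃g G, (∀ v, c (σ v) = c v) → ∀ v, σ v = v

/-- `G` has a distinguishing colouring with (at most) two colours. -/
def TwoDistinguishable {V : Type u} (G : SimpleGraph V) : Prop :=
  ∃ c : V → Fin 2, IsDistinguishing G c

/-- the only automorphism fixing every vertex of `S` is the identity -/
def IsDetermining {V : Type u} (G : SimpleGraph V) (S : Finset V) : Prop :=
  ∀ σ : G ≃g G, (∀ v ∈ S, σ v = v) → ∀ v, σ v = v

/-- the determining number: the least size of a determining set -/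
noncomputable def Det {V : Type u} (G : SimpleGraph V) : ℕ :=
  sInf {n | ∃ S : Finset V, IsDetermining G S ∧ S.card = n}

/-- `S` is a colour class of some distinguishing 2-colouring. -/
def IsDistinguishingClass {V : Type u} (G : SimpleGraph V) (S : Finset V) : Prop :=
  ∃ c : V → Fin 2, IsDistinguishing G c ∧ ∃ i : Fin 2, ∀ v, v ∈ S ↔ c v = i

/-- the cost number: the least size of a distinguishing class -/
noncomputable def cost {V : Type u} (G : SimpleGraph V) : ℕ :=
  sInf {n | ∃ S : Finset V, IsDistinguishingClass G S ∧ S.card = n}

/-- the action of the automorphism group on the vertices -/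
@[reducible] def act {V : Type u} (G : SimpleGraph V) : MulAction (G ≃g G) V where
  smul σ v := σ v
  one_smul _ := rfl
  mul_smul _ _ _ := rfl

theorem main (d : ℕ) : ∃ C : ℕ, ∀ (V : Type u) [Fintype V] (G : SimpleGraph V),
    TwoDistinguishable G → Det G = d →
      ∃ S : Finset V, IsDistinguishingClass G S ∧ S.card = cost G ∧ S.card ≤ C := by
  classical
  obtain ⟨C, hC⟩ := bounded.{u} d
  refine ⟨C, ?_⟩
  intro V _ G h2 hdet
  let _ : MulAction (G ≃g G) V := act G
  let _ : Fintype (G ≃g G) := Fintype.ofInjective (fun (σ : G ≃g G) (v : V) => σ v) (by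
    intro σ τ h
    ext v
    exact congrFun h v)
  have hsm : ∀ (σ : G ≃g G) (v : V), σ • v = σ v := fun _ _ => rfl
  -- a base of size d
  have hne : {n | ∃ S : Finset V, IsDetermining G S ∧ S.card = n}.Nonempty :=
    ⟨_, Finset.univ, fun σ h v => h v (Finset.mem_univ _), rfl⟩
  obtain ⟨B, hB1, hB2⟩ := Nat.sInf_mem hne
  have hBd : B.card = d := by rw [hB2]; exact hdet
  -- an asymmetric set
  obtain ⟨c, hc⟩ := h2
  have hD : Asym (G ≃g G) (Finset.univ.filter (fun v => c v = 0)) := by
    intro g hg
    have hsub : (Finset.univ.filter (fun v => c v = 0)).image (fun v => g v) ⊆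
        Finset.univ.filter (fun v => c v = 0) := by
      intro w hw
      rw [Finset.mem_image] at hw
      obtain ⟨v, hv, rfl⟩ := hw
      exact hg v hv
    have heq := Finset.eq_of_subset_of_card_le hsub (by
      rw [Finset.card_image_of_injective _ g.injective])
    have hiff : ∀ v, c (g v) = 0 ↔ c v = 0 := by
      intro v
      constructor
      · intro h
        have : g v ∈ (Finset.univ.filter (fun v => c v = 0)).image (fun v => g v) := by
          rw [heq]
          exact Finset.mem_filter.2 ⟨Finset.mem_univ _, h⟩
        rw [Finset.mem_image] at this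
        obtain ⟨w, hw, hw2⟩ := this
        have : w = v := g.injective hw2
        subst this
        exact (Finset.mem_filter.1 hw).2
      · intro h
        exact (Finset.mem_filter.1 (hg v (Finset.mem_filter.2 ⟨Finset.mem_univ _, h⟩))).2
    have hcol : ∀ v, c (g v) = c v := by
      intro v
      have h := hiff v
      have e1 : ∀ a b : Fin 2, (a = 0 ↔ b = 0) → a = b := by decide
      exact e1 _ _ h
    ext v
    exact hc g hcol v
  obtain ⟨S, hS1, hS2⟩ := hC (G ≃g G) V B (Finset.univ.filter (fun v => c v = 0)) hBd.le
    (by
      intro g hg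
      ext v
      exact hB1 g hg v) hD
  have hclass : IsDistinguishingClass G S := by
    refine ⟨fun v => if v ∈ S then 0 else 1, ?_, 0, ?_⟩
    · intro σ hσ v
      have h1 : σ = 1 := by
        apply hS2
        intro x hx
        have := hσ x
        simp only [if_pos hx] at this
        by_contra hx2
        rw [hsm] at hx2
        rw [if_neg hx2] at this
        exact absurd this (by decide)
      rw [h1]
      rfl
    · intro v
      constructor
      · intro hv
        simp [hv]
      · intro hv
        by_contra hv2
        simp only [if_neg hv2] at hv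
        exact absurd hv (by decide)
  have hne2 : {n | ∃ S : Finset V, IsDistinguishingClass G S ∧ S.card = n}.Nonempty :=
    ⟨_, S, hclass, rfl⟩
  obtain ⟨T, hT1, hT2⟩ := Nat.sInf_mem hne2
  refine ⟨T, hT1, hT2, ?_⟩
  rw [hT2]
  have hmem : S.card ∈ {n | ∃ S : Finset V, IsDistinguishingClass G S ∧ S.card = n} :=
    ⟨S, hclass, rfl⟩
  exact (Nat.sInf_le hmem).trans hS1

/-- **The cost number is bounded by a function of the determining number.** For every `d` there
is `C` such that every finite 2-distinguishable graph with determining number `d` has a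
distinguishing class of size `ρ(G) ≤ C`. Hence, for every `d` (in particular every `d ≥ 3`),
it is not true that for every `N` there is such a graph with `ρ(G) ≥ d + N`. -/
theorem result :
    (∀ d : ℕ, ∃ C : ℕ, ∀ (V : Type u) [Fintype V] (G : SimpleGraph V),
      TwoDistinguishable G → Det G = d →
        ∃ S : Finset V, IsDistinguishingClass G S ∧ S.card = cost G ∧ cost G ≤ C) ∧
    (∀ d : ℕ, ¬ ∀ N : ℕ, ∃ (V : Type u) (_ : Fintype V) (G : SimpleGraph V),
      TwoDistinguishable G ∧ Det G = d ∧ d + N ≤ cost G) := by
  constructor
  · intro d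
    obtain ⟨C, hC⟩ := main.{u} d
    refine ⟨C, ?_⟩
    intro V _ G h1 h2
    obtain ⟨S, hS1, hS2, hS3⟩ := hC V G h1 h2
    exact ⟨S, hS1, hS2, hS2 ▸ hS3⟩
  · intro d hN
    obtain ⟨C, hC⟩ := main.{u} d
    obtain ⟨V, _, G, h1, h2, h3⟩ := hN (C + 1)
    obtain ⟨S, _, hS2, hS3⟩ := hC V G h1 h2
    omega

end Pool.Agent.Results.MP_ff3c98_co.CostBounded
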